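import Mathlib
import Pool.Agent.H24.Wave

set_option autoImplicit false

namespace Pool.Agent.Results.MP_a5b0d0_al.Undecidable

open Pool.Agent.H24.Srs

theorem result : ∃ (A : Type) (_ : Finite A) (_ : Primcodable A) (R : Set (List A × List A)),
    R.Finite ∧ (∀ p ∈ R, p.2.length < p.1.length) ∧ Confl R ∧
    ¬ ComputablePred fun x : List A × List A => CConj (cl R x.1) (cl R x.2) :=
  Pool.Agent.H24.Wave.final

end Pool.Agent.Results.MP_a5b0d0_al.Undecidable
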